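import Pool.Agent.Y994.MD.ScaleB
import Pool.Agent.Y994.MC.Lim

/-!
The comparison of the natural time and the area of the neighbourhoods without boundary terms: one
scale, small meshes, and passage to the weak limits.
-/

set_option autoImplicit false

namespace Y994.MD

open H974 Finset H342P H984P H984N Y994.MC MeasureTheory Filter Topology

theorem real_lowerB {K x w T N0 δ : ℝ} (hK : 0 < K) (hx : 0 < x)
    (hw1 : x / 2 ≤ w) (hw2 : w ≤ x) (hT : 0 ≤ T) (hN0 : 0 ≤ N0) (hδ : 0 < δ) (hδx : δ ≤ x) :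
    (K * ((T + 2 * δ ^ (7/4 : ℝ)) / w ^ (7/4 : ℝ)) + (N0 + 9)) *
      (4 * (8 * x + 3 * w) ^ 2) ≤
      1936 * K * x ^ (1/4 : ℝ) * T + 484 * (8 * K + N0 + 9) * x ^ 2 := by
  have hw : 0 < w := by linarith
  have h1 : x ^ (7/4 : ℝ) ≤ 4 * w ^ (7/4 : ℝ) := by
    have h2 : (x / 2) ^ (7/4 : ℝ) ≤ w ^ (7/4 : ℝ) :=
      Real.rpow_le_rpow (by positivity) hw1 (by norm_num)
    rw [Real.div_rpow hx.le (by norm_num)] at h2
    have h7 : (2:ℝ) ^ (7/4 : ℝ) ≤ 4 := by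
      calc (2:ℝ) ^ (7/4 : ℝ) ≤ 2 ^ (2 : ℝ) :=
            Real.rpow_le_rpow_of_exponent_le (by norm_num) (by norm_num)
        _ = 4 := by norm_num
    have h8 : (0:ℝ) < 2 ^ (7/4 : ℝ) := by positivity
    rw [div_le_iff₀ h8] at h2
    have h9 : 0 ≤ w ^ (7/4 : ℝ) := by positivity
    nlinarith
  have hwp : 0 < w ^ (7/4 : ℝ) := Real.rpow_pos_of_pos hw _
  have hxp : 0 < x ^ (7/4 : ℝ) := Real.rpow_pos_of_pos hx _
  have h2 : δ ^ (7/4 : ℝ) ≤ x ^ (7/4 : ℝ) := Real.rpow_le_rpow hδ.le hδx (by norm_num)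
  have hδp : 0 < δ ^ (7/4 : ℝ) := Real.rpow_pos_of_pos hδ _
  have h3 : (T + 2 * δ ^ (7/4 : ℝ)) / w ^ (7/4 : ℝ) ≤
      4 * T / x ^ (7/4 : ℝ) + 8 := by
    have h4 : (T + 2 * δ ^ (7/4 : ℝ)) / w ^ (7/4 : ℝ) ≤
        (T + 2 * x ^ (7/4 : ℝ)) / (x ^ (7/4 : ℝ) / 4) := by
      apply div_le_div₀ (by positivity) (by linarith) (by positivity)
      linarith
    refine h4.trans (le_of_eq ?_)
    field_simp
    ring
  have h5 : (4 * (8 * x + 3 * w) ^ 2) ≤ 484 * x ^ 2 := by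
    have : (8 * x + 3 * w) ^ 2 ≤ (11 * x) ^ 2 :=
      pow_le_pow_left₀ (by positivity) (by linarith) 2
    nlinarith
  have h6 : 0 ≤ K * ((T + 2 * δ ^ (7/4 : ℝ)) / w ^ (7/4 : ℝ)) + (N0 + 9) := by positivity
  have e1 : x ^ 2 / x ^ (7/4 : ℝ) = x ^ (1/4 : ℝ) := by
    rw [← Real.rpow_natCast x 2, ← Real.rpow_sub hx]
    norm_num
  calc (K * ((T + 2 * δ ^ (7/4 : ℝ)) / w ^ (7/4 : ℝ)) + (N0 + 9)) *
      (4 * (8 * x + 3 * w) ^ 2) ≤
      (K * ((T + 2 * δ ^ (7/4 : ℝ)) / w ^ (7/4 : ℝ)) + (N0 + 9)) * (484 * x ^ 2) :=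
        mul_le_mul_of_nonneg_left h5 h6
    _ ≤ (K * (4 * T / x ^ (7/4 : ℝ) + 8) + (N0 + 9)) * (484 * x ^ 2) := by
        refine mul_le_mul_of_nonneg_right ?_ (by positivity)
        have := mul_le_mul_of_nonneg_left h3 hK.le
        linarith
    _ = 1936 * K * (x ^ 2 / x ^ (7/4 : ℝ)) * T + 484 * (8 * K + N0 + 9) * x ^ 2 := by
        field_simp
        ring
    _ = 1936 * K * x ^ (1/4 : ℝ) * T + 484 * (8 * K + N0 + 9) * x ^ 2 := by
        rw [e1]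

/-- The good events of the scale `2 ^ (-j)`. -/
def GE (K : ℝ) (j : ℕ) (a b : ℝ) : Set X :=
  EU (K * ((1/2:ℝ) ^ j) ^ (-(1/4) : ℝ)) (K * (j + 1) * ((1/2:ℝ) ^ j) ^ (7/4 : ℝ))
    (a * (1/2) ^ j) ∩
  EL (484 * K * ((1/2:ℝ) ^ j) ^ (1/4 : ℝ)) (484 * K * (j + 1) * ((1/2) ^ j) ^ 2) (b * (1/2) ^ j)

/-- The two comparisons hold at the scale `2 ^ (-j)` for small meshes, up to a small
probability. -/
theorem meshB {c C : ℝ} (hc : 0 < c) (hC : 0 < C) (hL : LowA c (1/4)) (hU : TwoUp C (1/4)) :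
    ∃ K : ℝ, 1 ≤ K ∧ ∀ R : Rect, ∃ B : ℝ, 0 < B ∧ ∀ j : ℕ, ∃ δ1 : ℝ, 0 < δ1 ∧
      ∀ δ : ℝ, 0 < δ → δ ≤ δ1 →
        R.prob δ (fun F => (R.curve δ F, R.time δ F) ∉ GE K j 2 8) ≤ B * (1/4) ^ j := by
  obtain ⟨s0, K, hs0, hK, hgood⟩ := goodB_pr hc hC hL hU
  refine ⟨8 * K + 9, by linarith, fun R => ?_⟩
  obtain ⟨κ, S, δ0, hκ, hS, hδ0, hδ01, hshape⟩ := R.shape
  obtain ⟨j0, hj0⟩ : ∃ j0 : ℕ, ((1:ℝ)/2) ^ j0 < κ * S / 8 :=
    exists_pow_lt_of_lt_one (by positivity) (by norm_num)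
  set B := 20 * (2 * S + 2) ^ 2 + 4 ^ j0 with hB
  have hB0 : 0 < B := by positivity
  refine ⟨B, hB0, fun j => ?_⟩
  rcases lt_or_ge j j0 with hjj | hjj
  · refine ⟨1, one_pos, fun δ _ _ => ?_⟩
    have h1 : R.prob δ (fun F => (R.curve δ F, R.time δ F) ∉ GE (8 * K + 9) j 2 8) ≤ 1 := by
      unfold Rect.prob
      exact Pr_le_one two_ok _ _
    refine h1.trans ?_
    have h2 : (1:ℝ) ≤ 4 ^ j0 * (1/4) ^ j := by
      have e : (1:ℝ) = 4 ^ j * (1/4) ^ j := by rw [← mul_pow]; norm_num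
      exact e.le.trans (mul_le_mul_of_nonneg_right (pow_le_pow_right₀ (by norm_num) hjj.le)
        (by positivity))
    refine h2.trans (mul_le_mul_of_nonneg_right ?_ (by positivity))
    rw [hB]
    have : 0 ≤ 20 * (2 * S + 2) ^ 2 := by positivity
    linarith
  set x : ℝ := (1/2:ℝ) ^ j with hx
  have hx0 : 0 < x := by positivity
  have hx1 : x ≤ 1 := pow_le_one₀ (by norm_num) (by norm_num)
  have hxS : 8 * x ≤ κ * S := by
    have : x ≤ (1/2) ^ j0 := pow_le_pow_of_le_one (by norm_num) (by norm_num) hjj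
    linarith
  refine ⟨min δ0 (x / (s0 + 3)), by positivity, fun δ hδ hδle => ?_⟩
  have hd0 : δ ≤ δ0 := hδle.trans (min_le_left _ _)
  have hd1 : δ ≤ x / (s0 + 3) := hδle.trans (min_le_right _ _)
  have hd2 : δ * (s0 + 3) ≤ x := by
    rw [le_div_iff₀ (by positivity)] at hd1
    exact hd1
  have hdx : δ ≤ x := by nlinarith
  have hsh := hshape δ hδ hd0
  have hok := hsh.ok
  obtain ⟨W, hW⟩ : ∃ W : ℕ, W = ⌊x / δ⌋₊ := ⟨_, rfl⟩
  have hxd : s0 + 3 ≤ x / δ := by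
    rw [le_div_iff₀ hδ]
    linarith
  have hW1 : (W:ℝ) ≤ x / δ := by rw [hW]; exact Nat.floor_le (by positivity)
  have hW1' : x / δ < (W:ℝ) + 1 := by rw [hW]; exact Nat.lt_floor_add_one _
  have hWs : s0 + 2 ≤ W := by linarith
  have hW2 : 2 ≤ W := by
    have : (2:ℝ) ≤ W := by linarith
    exact_mod_cast this
  have hWr : (0:ℝ) < W := by linarith
  have hw2 : δ * (W:ℝ) ≤ x := by
    rw [le_div_iff₀ hδ] at hW1
    linarith
  have hw1 : x / 2 ≤ δ * (W:ℝ) := by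
    rw [div_lt_iff₀ hδ] at hW1'
    nlinarith
  have hw0 : 0 < δ * (W:ℝ) := by positivity
  obtain ⟨hSB, -⟩ := SB_card hok (W := W) (by omega) hsh.w_le hsh.h_le
  have hnW : S / δ / W ≤ 2 * S / x := by
    rw [div_div, div_le_div_iff₀ (by positivity) hx0]
    nlinarith
  have h8 : (8:ℝ) * W ≤ κ * (S / δ) := by
    have e : κ * (S / δ) = κ * S / δ := by ring
    rw [e, le_div_iff₀ hδ]
    linarith
  have g1 : 8 * (W:ℤ) ≤ -(R.dm δ).l := by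
    have : ((8 * (W:ℤ) : ℤ) : ℝ) ≤ ((-(R.dm δ).l : ℤ) : ℝ) := by
      push_cast
      have := hsh.l_ge
      linarith
    exact_mod_cast this
  have g2 : 8 * (W:ℤ) ≤ (R.dm δ).r := by
    have : ((8 * (W:ℤ) : ℤ) : ℝ) ≤ (((R.dm δ).r : ℤ) : ℝ) := by
      push_cast
      have := hsh.r_ge
      linarith
    exact_mod_cast this
  have g3 : 8 * (W:ℤ) ≤ (R.dm δ).h := by
    have : ((8 * (W:ℤ) : ℤ) : ℝ) ≤ (((R.dm δ).h : ℤ) : ℝ) := by
      push_cast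
      have := hsh.h_ge
      linarith
    exact_mod_cast this
  have h1 := hgood (R.dm δ) hok W (by omega) (by linarith) g1 g2 g3 (4 * j)
  have hpr : ((SB (R.dm δ) W).card : ℝ) * (20 * (1/2) ^ (4 * j)) ≤ B * (1/4) ^ j := by
    have h2 : S / δ / W + 2 ≤ (2 * S + 2) / x := by
      have : 2 ≤ 2 / x := by
        rw [le_div_iff₀ hx0]
        linarith
      rw [add_div]
      linarith
    have h3 : (S / δ / W + 2) ^ 2 ≤ ((2 * S + 2) / x) ^ 2 :=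
      pow_le_pow_left₀ (by positivity) h2 2
    have e4 : ((1:ℝ)/2) ^ (4 * j) = x ^ 4 := by
      rw [hx, ← pow_mul, mul_comm]
    have e5 : ((1:ℝ)/4) ^ j = x ^ 2 := by
      rw [hx, ← pow_mul, mul_comm, pow_mul]
      norm_num
    rw [e4, e5]
    calc ((SB (R.dm δ) W).card : ℝ) * (20 * x ^ 4) ≤ ((2 * S + 2) / x) ^ 2 * (20 * x ^ 4) :=
          mul_le_mul_of_nonneg_right (hSB.trans h3) (by positivity)
      _ = 20 * (2 * S + 2) ^ 2 * x ^ 2 := by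
          field_simp
      _ ≤ B * x ^ 2 := by
          refine mul_le_mul_of_nonneg_right ?_ (by positivity)
          rw [hB]
          have : (0:ℝ) ≤ 4 ^ j0 := by positivity
          linarith
  refine le_trans ?_ (h1.trans hpr)
  unfold Rect.prob
  refine Pr_mono two_ok fun F hF hnot hG => hnot ?_
  have hj0' : (0:ℝ) ≤ j := Nat.cast_nonneg j
  constructor
  · intro s t hst
    have h2 := area_time hok hF hδ (W := W) (by omega) hK hG.good (s := s) (t := t) (r := 2 * x)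
      (by linarith)
    refine h2.trans ((real_upper hK hx0 hw1 hw2 measureReal_nonneg (Nat.cast_nonneg _) hδ
      hdx).trans ?_)
    push_cast
    refine add_le_add (mul_le_mul_of_nonneg_right (mul_le_mul_of_nonneg_right ?_
      (by positivity)) measureReal_nonneg) (mul_le_mul_of_nonneg_right ?_ (by positivity))
    · linarith
    · have e : (8 * K + 9) * ((j:ℝ) + 1) = K * (4 * j) + 1 + (4 * (K * j) + 8 * K + 9 * j + 8) := by
        ring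
      rw [e]
      have : 0 ≤ K * j := mul_nonneg hK.le hj0'
      linarith
  · intro s t hst
    have hst' : (s:ℝ) ≤ t := hst
    have h2 := time_areaB hok hF hδ hW2 hK hG hst (r := 8 * x) (by positivity)
    refine h2.trans ((real_lowerB hK hx0 hw1 hw2
      (mul_nonneg (by linarith) (by positivity))
      (Nat.cast_nonneg _) hδ hdx).trans ?_)
    have e9 : (R.curve δ F, R.time δ F).2 = δ ^ (7/4 : ℝ) * (R.dm δ).len F := rfl
    rw [e9]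
    have h10 : 0 ≤ x ^ (1/4 : ℝ) * (((t:ℝ) - s) * (δ ^ (7/4 : ℝ) * (R.dm δ).len F)) := by
      have : 0 ≤ (t:ℝ) - s := by linarith
      positivity
    push_cast
    refine add_le_add ?_ ?_
    · have e12 : 484 * (8 * K + 9) * x ^ (1/4 : ℝ) *
          (((t:ℝ) - s) * (δ ^ (7/4 : ℝ) * (R.dm δ).len F)) = 1936 * K * x ^ (1/4 : ℝ) *
          (((t:ℝ) - s) * (δ ^ (7/4 : ℝ) * (R.dm δ).len F)) +
          484 * (4 * K + 9) * (x ^ (1/4 : ℝ) * (((t:ℝ) - s) * (δ ^ (7/4 : ℝ) *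
            (R.dm δ).len F))) := by ring
      rw [e12]
      have : 0 ≤ 484 * (4 * K + 9) * (x ^ (1/4 : ℝ) * (((t:ℝ) - s) * (δ ^ (7/4 : ℝ) *
            (R.dm δ).len F))) := mul_nonneg (by positivity) h10
      linarith
    · refine mul_le_mul_of_nonneg_right ?_ (by positivity)
      have e : 484 * (8 * K + 9) * ((j:ℝ) + 1) =
          484 * (8 * K + 4 * j + 9) + 484 * (8 * (K * j) + 5 * j) := by ring
      rw [e]
      have : 0 ≤ K * j := mul_nonneg hK.le hj0'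
      linarith

/-- The comparisons hold almost surely at all small scales. -/
theorem lim_aeB {K : ℝ} (hK : 0 < K) {R : Rect} {B : ℝ} (hB : 0 < B)
    (h : ∀ j : ℕ, ∃ δ1 : ℝ, 0 < δ1 ∧ ∀ δ : ℝ, 0 < δ → δ ≤ δ1 →
      R.prob δ (fun F => (R.curve δ F, R.time δ F) ∉ GE K j 2 8) ≤ B * (1/4) ^ j)
    {δ : ℕ → ℝ} (hδ : ∀ i, 0 < δ i) (hlim : Tendsto δ atTop (𝓝 0))
    {μ : ProbabilityMeasure X} (hμ : Tendsto (fun i => R.law (δ i)) atTop (𝓝 μ)) :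
    ∀ᵐ p ∂(μ : Measure X), ∀ᶠ j : ℕ in atTop, p ∈ GE K j 3 7 := by
  have h1 : ∀ j, (μ : Measure X) (closure (GE K j 2 8))ᶜ ≤ ENNReal.ofReal (B * (1/4) ^ j) := by
    intro j
    obtain ⟨δ1, hδ1, h2⟩ := h j
    refine limit_closed R hδ hlim hμ isClosed_closure (by positivity) hδ1 fun d hd hd1 => ?_
    refine le_trans ?_ (h2 d hd hd1)
    unfold Rect.prob
    exact Pr_mono two_ok fun F _ hn hn2 => hn (subset_closure hn2)
  have hsum : ∑' j, (μ : Measure X) (closure (GE K j 2 8))ᶜ ≠ ⊤ := by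
    refine (lt_of_le_of_lt (ENNReal.tsum_le_tsum h1) ?_).ne
    rw [← ENNReal.ofReal_tsum_of_nonneg (fun j => by positivity)
      ((summable_geometric_of_lt_one (by norm_num) (by norm_num)).mul_left B)]
    exact ENNReal.ofReal_lt_top
  have h3 := ae_eventually_notMem hsum
  filter_upwards [h3] with p hp
  filter_upwards [hp] with j hj
  have hj' : p ∈ closure (GE K j 2 8) := by
    by_contra hcon
    exact hj hcon
  have hx : (0:ℝ) < (1/2) ^ j := by positivity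
  unfold GE at hj'
  constructor
  · exact EU_closure (by positivity) (by linarith) (closure_mono Set.inter_subset_left hj')
  · exact EL_closure (by positivity) (by linarith) (closure_mono Set.inter_subset_right hj')

/-- The two comparisons for all small radii and all pieces. -/
theorem all_gen {K : ℝ} (hK : 0 < K) {p : X} (hp2 : 0 < p.2)
    (h : ∀ᶠ j : ℕ in atTop, p ∈ GE K j 3 7) :
    ∀ᶠ ρ : ℝ in 𝓝[>] 0, ∀ s t : unitInterval, s ≤ t →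
      1 / (4 * K) * (p.2 * ((t:ℝ) - s)) * ρ ^ (1/4 : ℝ) ≤
        ar ρ p.1 s t + ρ ^ 2 * Real.log (1 / ρ) ∧
      ar ρ p.1 s t ≤
        484 * K * ((p.2 * ((t:ℝ) - s)) * ρ ^ (1/4 : ℝ) + ρ ^ 2 * Real.log (1 / ρ)) := by
  obtain ⟨J, hJ⟩ := eventually_atTop.mp (h.and (eventually_ge_atTop 4))
  have hev : ∀ᶠ ρ : ℝ in 𝓝[>] 0, 0 < ρ ∧ ρ < 3 * (1/2) ^ J :=
    Filter.Eventually.and self_mem_nhdsWithin
      (nhdsWithin_le_nhds (gt_mem_nhds (by positivity)))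
  filter_upwards [hev] with ρ hρ s t hst
  obtain ⟨hρ0, hρ1⟩ := hρ
  have hJ1 : ((1:ℝ)/2) ^ J ≤ 1 := pow_le_one₀ (by norm_num) (by norm_num)
  obtain ⟨n, hn1, hn2⟩ := exists_nat_pow_near_of_lt_one (x := ρ / 3) (y := (1/2:ℝ))
    (by positivity) (by linarith) (by norm_num) (by norm_num)
  have hnJ : J ≤ n + 1 := by
    by_contra hcon
    push Not at hcon
    have h5 : ((1:ℝ)/2) ^ J ≤ (1/2) ^ (n + 1) :=
      pow_le_pow_of_le_one (by norm_num) (by norm_num) hcon.le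
    linarith
  obtain ⟨⟨hU, hLw⟩, hn4⟩ := hJ (n + 1) hnJ
  have e2 : ((1:ℝ)/2) ^ n = 2 * (1/2) ^ (n + 1) := by
    rw [pow_succ]
    ring
  rw [e2] at hn2
  obtain ⟨x, hx⟩ : ∃ x : ℝ, x = (1/2) ^ (n + 1) := ⟨_, rfl⟩
  rw [← hx] at hU hLw hn1 hn2
  have hx0 : 0 < x := by rw [hx]; positivity
  obtain ⟨m, hm⟩ : ∃ m : ℝ, m = ((n + 1 : ℕ) : ℝ) + 1 := ⟨_, rfl⟩
  rw [← hm] at hU hLw
  have hm5 : 5 ≤ m := by
    have : (4:ℝ) ≤ ((n + 1 : ℕ) : ℝ) := by exact_mod_cast hn4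
    rw [hm]
    linarith
  have hst' : (s:ℝ) ≤ t := hst
  have g1 := hU s t hst
  have g2 := hLw s t hst
  have m1 : ar (3 * x) p.1 s t ≤ ar ρ p.1 s t := ar_mono' (by linarith) s t
  have m2 : ar ρ p.1 s t ≤ ar (7 * x) p.1 s t := ar_mono' (by linarith) s t
  obtain ⟨T, hT⟩ : ∃ T : ℝ, T = ((t:ℝ) - s) * p.2 := ⟨_, rfl⟩
  rw [← hT] at g1 g2
  have eT : p.2 * ((t:ℝ) - s) = T := by rw [hT]; ring
  rw [eT]
  have hT0 : 0 ≤ T := by rw [hT]; exact mul_nonneg (by linarith) hp2.le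
  obtain ⟨L, hL⟩ : ∃ L : ℝ, L = Real.log (1 / ρ) := ⟨_, rfl⟩
  rw [← hL]
  -- the logarithm
  have hlog : m * x ^ 2 ≤ ρ ^ 2 * L := by
    have l1 : Real.log (1 / x) = (n + 1 : ℕ) * Real.log 2 := by
      rw [hx, one_div, ← inv_pow, Real.log_pow]
      norm_num
    have l2 : 1 / (6 * x) ≤ 1 / ρ := one_div_le_one_div_of_le hρ0 (by linarith)
    have l3 : Real.log (1 / (6 * x)) ≤ L := by
      rw [hL]
      exact Real.log_le_log (by positivity) l2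
    have l4 : Real.log (1 / (6 * x)) = Real.log (1 / x) - Real.log 6 := by
      rw [← Real.log_div (by positivity) (by norm_num)]
      congr 1
      field_simp
    have l5 : Real.log 6 ≤ 2 := by
      rw [Real.log_le_iff_le_exp (by norm_num)]
      have : (2.7:ℝ) ≤ Real.exp 1 := by linarith [Real.exp_one_gt_d9]
      have e : Real.exp 2 = Real.exp 1 * Real.exp 1 := by rw [← Real.exp_add]; norm_num
      rw [e]
      nlinarith
    have l6 := Real.log_two_gt_d9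
    have l7 : (4:ℝ) ≤ ((n + 1 : ℕ) : ℝ) := by exact_mod_cast hn4
    have l8 : m ≤ 9 * L := by
      rw [l4, l1] at l3
      rw [hm]
      nlinarith
    have l9 : 9 * x ^ 2 ≤ ρ ^ 2 := by
      have h1 : 3 * x ≤ ρ := by linarith
      have h2 : (3 * x) ^ 2 ≤ ρ ^ 2 := pow_le_pow_left₀ (by positivity) h1 2
      linarith
    have hL0 : 0 ≤ L := by linarith
    calc m * x ^ 2 ≤ 9 * L * x ^ 2 := mul_le_mul_of_nonneg_right l8 (by positivity)
      _ = L * (9 * x ^ 2) := by ring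
      _ ≤ L * ρ ^ 2 := mul_le_mul_of_nonneg_left l9 hL0
      _ = ρ ^ 2 * L := by ring
  have hx14 : 0 < x ^ (1/4 : ℝ) := Real.rpow_pos_of_pos hx0 _
  have hxn : 0 < x ^ (-(1/4) : ℝ) := Real.rpow_pos_of_pos hx0 _
  have f1 : x ^ (7/4 : ℝ) * x ^ (1/4 : ℝ) = x ^ 2 := by
    rw [← Real.rpow_add hx0, ← Real.rpow_natCast]
    norm_num
  have f3 : x ^ (1/4 : ℝ) * x ^ (-(1/4) : ℝ) = 1 := by
    rw [← Real.rpow_add hx0]
    norm_num
  have har : 0 ≤ ar ρ p.1 s t := ar_nonneg _ _ _ _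
  constructor
  · have h2 : T ≤ K * x ^ (-(1/4) : ℝ) * ar ρ p.1 s t + K * m * x ^ (7/4 : ℝ) := by
      have h3 := mul_le_mul_of_nonneg_left m1 (mul_nonneg hK.le hxn.le)
      linarith
    have h3 : T * x ^ (1/4 : ℝ) ≤ K * ar ρ p.1 s t + K * (m * x ^ 2) := by
      have h4 := mul_le_mul_of_nonneg_right h2 hx14.le
      have e : (K * x ^ (-(1/4) : ℝ) * ar ρ p.1 s t + K * m * x ^ (7/4 : ℝ)) * x ^ (1/4 : ℝ) =
          K * ar ρ p.1 s t * (x ^ (1/4 : ℝ) * x ^ (-(1/4) : ℝ)) +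
            K * (m * (x ^ (7/4 : ℝ) * x ^ (1/4 : ℝ))) := by ring
      rw [e, f3, f1, mul_one] at h4
      exact h4
    have h5 : ρ ^ (1/4 : ℝ) ≤ 2 * x ^ (1/4 : ℝ) := by
      have h6 : ρ ^ (1/4 : ℝ) ≤ (16 * x) ^ (1/4 : ℝ) :=
        Real.rpow_le_rpow hρ0.le (by linarith) (by norm_num)
      have e : (16 * x) ^ (1/4 : ℝ) = 2 * x ^ (1/4 : ℝ) := by
        rw [Real.mul_rpow (by norm_num) hx0.le]
        congr 1
        rw [show (16:ℝ) = 2 ^ (4:ℝ) by norm_num, ← Real.rpow_mul (by norm_num)]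
        norm_num
      rw [e] at h6
      exact h6
    have h7 : T * ρ ^ (1/4 : ℝ) ≤ 4 * K * (ar ρ p.1 s t + ρ ^ 2 * L) := by
      have h8 := mul_le_mul_of_nonneg_left h5 hT0
      have h9 := mul_le_mul_of_nonneg_left hlog hK.le
      have h10 : 0 ≤ K * ar ρ p.1 s t := mul_nonneg hK.le har
      have h11 : 0 ≤ K * (ρ ^ 2 * L) := le_trans (by positivity) h9
      have e : 4 * K * (ar ρ p.1 s t + ρ ^ 2 * L) =
        4 * (K * ar ρ p.1 s t) + 4 * (K * (ρ ^ 2 * L)) := by ring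
      have e' : T * (2 * x ^ (1/4 : ℝ)) = 2 * (T * x ^ (1/4 : ℝ)) := by ring
      rw [e]
      rw [e'] at h8
      linarith
    have e : 1 / (4 * K) * T * ρ ^ (1/4 : ℝ) = T * ρ ^ (1/4 : ℝ) / (4 * K) := by
      field_simp
    rw [e, div_le_iff₀ (by positivity)]
    linarith
  · have h2 : x ^ (1/4 : ℝ) ≤ ρ ^ (1/4 : ℝ) :=
      Real.rpow_le_rpow hx0.le (by linarith) (by norm_num)
    have h3 : 484 * K * x ^ (1/4 : ℝ) * T ≤ 484 * K * (T * ρ ^ (1/4 : ℝ)) := by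
      have := mul_le_mul_of_nonneg_left h2 (show 0 ≤ 484 * K * T by positivity)
      have e1 : 484 * K * T * x ^ (1/4 : ℝ) = 484 * K * x ^ (1/4 : ℝ) * T := by ring
      have e2 : 484 * K * T * ρ ^ (1/4 : ℝ) = 484 * K * (T * ρ ^ (1/4 : ℝ)) := by ring
      rw [e1, e2] at this
      exact this
    have h4 : 484 * K * m * x ^ 2 ≤ 484 * K * (ρ ^ 2 * L) := by
      have := mul_le_mul_of_nonneg_left hlog (show 0 ≤ 484 * K by positivity)
      have e1 : 484 * K * (m * x ^ 2) = 484 * K * m * x ^ 2 := by ring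
      rw [e1] at this
      exact this
    have h5 := m2.trans g2
    have e : 484 * K * (T * ρ ^ (1/4 : ℝ) + ρ ^ 2 * L) =
      484 * K * (T * ρ ^ (1/4 : ℝ)) + 484 * K * (ρ ^ 2 * L) := by ring
    rw [e]
    linarith

/-- Comparability of the time and the area down to the scale of the modulus of continuity. -/
theorem all_two {K : ℝ} (hK : 1 ≤ K) {p : X}
    (h : ∀ᶠ ρ : ℝ in 𝓝[>] 0, ∀ s t : unitInterval, s ≤ t →
      1 / (4 * K) * (p.2 * ((t:ℝ) - s)) * ρ ^ (1/4 : ℝ) ≤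
        ar ρ p.1 s t + ρ ^ 2 * Real.log (1 / ρ) ∧
      ar ρ p.1 s t ≤
        484 * K * ((p.2 * ((t:ℝ) - s)) * ρ ^ (1/4 : ℝ) + ρ ^ 2 * Real.log (1 / ρ))) :
    ∀ᶠ ρ : ℝ in 𝓝[>] 0, ∀ s t : unitInterval, s ≤ t →
      968 * K * ρ ^ (7/4 : ℝ) * Real.log (1 / ρ) ≤ p.2 * ((t:ℝ) - s) →
      1 / (8 * K) * (p.2 * ((t:ℝ) - s)) * ρ ^ (1/4 : ℝ) ≤ ar ρ p.1 s t ∧
      ar ρ p.1 s t ≤ 968 * K * (p.2 * ((t:ℝ) - s)) * ρ ^ (1/4 : ℝ) := by
  have hev : ∀ᶠ ρ : ℝ in 𝓝[>] 0, 0 < ρ ∧ ρ < 1 :=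
    Filter.Eventually.and self_mem_nhdsWithin (nhdsWithin_le_nhds (gt_mem_nhds one_pos))
  filter_upwards [h, hev] with ρ hρ hρ1 s t hst hT
  obtain ⟨hρ0, hρ1⟩ := hρ1
  obtain ⟨h1, h2⟩ := hρ s t hst
  obtain ⟨T, hTe⟩ : ∃ T : ℝ, T = p.2 * ((t:ℝ) - s) := ⟨_, rfl⟩
  obtain ⟨L, hLe⟩ : ∃ L : ℝ, L = Real.log (1 / ρ) := ⟨_, rfl⟩
  rw [← hTe, ← hLe] at h1 h2 hT
  rw [← hTe]
  have hL0 : 0 ≤ L := by
    rw [hLe]
    exact Real.log_nonneg (by rw [le_div_iff₀ hρ0]; linarith)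
  have hr14 : 0 < ρ ^ (1/4 : ℝ) := Real.rpow_pos_of_pos hρ0 _
  have f1 : ρ ^ (7/4 : ℝ) * ρ ^ (1/4 : ℝ) = ρ ^ 2 := by
    rw [← Real.rpow_add hρ0, ← Real.rpow_natCast]
    norm_num
  have h3 : 968 * K * (ρ ^ 2 * L) ≤ T * ρ ^ (1/4 : ℝ) := by
    have h4 := mul_le_mul_of_nonneg_right hT hr14.le
    have e : 968 * K * ρ ^ (7/4 : ℝ) * L * ρ ^ (1/4 : ℝ) =
        968 * K * ((ρ ^ (7/4 : ℝ) * ρ ^ (1/4 : ℝ)) * L) := by ring
    rw [e, f1] at h4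
    exact h4
  have hX0 : 0 ≤ ρ ^ 2 * L := by positivity
  constructor
  · have h5 : ρ ^ 2 * L ≤ 1 / (8 * K) * (T * ρ ^ (1/4 : ℝ)) := by
      have e : 1 / (8 * K) * (T * ρ ^ (1/4 : ℝ)) = T * ρ ^ (1/4 : ℝ) / (8 * K) := by
        field_simp
      rw [e, le_div_iff₀ (by positivity)]
      nlinarith
    have e : 1 / (4 * K) * T * ρ ^ (1/4 : ℝ) = 2 * (1 / (8 * K) * T * ρ ^ (1/4 : ℝ)) := by
      field_simp
      ring
    rw [e] at h1
    linarith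
  · have h5 : ρ ^ 2 * L ≤ T * ρ ^ (1/4 : ℝ) := by nlinarith
    nlinarith

/-- The form which is used for the Hausdorff measure. -/
theorem all_34 {K : ℝ} {p : X} (hp2 : 0 < p.2)
    (h : ∀ᶠ ρ : ℝ in 𝓝[>] 0, ∀ s t : unitInterval, s ≤ t →
      968 * K * ρ ^ (7/4 : ℝ) * Real.log (1 / ρ) ≤ p.2 * ((t:ℝ) - s) →
      1 / (8 * K) * (p.2 * ((t:ℝ) - s)) * ρ ^ (1/4 : ℝ) ≤ ar ρ p.1 s t ∧
      ar ρ p.1 s t ≤ 968 * K * (p.2 * ((t:ℝ) - s)) * ρ ^ (1/4 : ℝ)) :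
    ∀ᶠ ρ : ℝ in 𝓝[>] 0, ∀ s t : unitInterval, (s:ℝ) + 1 * ρ ^ (3/4 : ℝ) ≤ t →
      ar ρ p.1 s t ≤ 968 * K * (p.2 * ((t:ℝ) - s)) * ρ ^ (1/4 : ℝ) := by
  have h1 := (tendsto_log_mul_rpow_nhdsGT_zero (r := 1) one_pos).const_mul (-(968 * K))
  rw [mul_zero] at h1
  filter_upwards [h, h1.eventually (ge_mem_nhds hp2), self_mem_nhdsWithin] with ρ hρ h2 h3 s t hst
  have hρ0 : (0:ℝ) < ρ := h3
  have h34 : 0 < ρ ^ (3/4 : ℝ) := Real.rpow_pos_of_pos hρ0 _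
  have hst' : s ≤ t := by
    show (s:ℝ) ≤ t
    linarith
  refine (hρ s t hst' ?_).2
  rw [Real.rpow_one] at h2
  have e : ρ ^ (7/4 : ℝ) = ρ * ρ ^ (3/4 : ℝ) := by
    nth_rewrite 2 [← Real.rpow_one ρ]
    rw [← Real.rpow_add hρ0]
    norm_num
  have e2 : Real.log (1 / ρ) = -Real.log ρ := by
    rw [one_div, Real.log_inv]
  rw [e, e2]
  calc 968 * K * (ρ * ρ ^ (3/4 : ℝ)) * -Real.log ρ =
      (-(968 * K) * (Real.log ρ * ρ)) * ρ ^ (3/4 : ℝ) := by ring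
    _ ≤ p.2 * ρ ^ (3/4 : ℝ) := mul_le_mul_of_nonneg_right h2 h34.le
    _ ≤ p.2 * ((t:ℝ) - s) := mul_le_mul_of_nonneg_left (by linarith) hp2.le

end Y994.MD
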