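import Pool.Agent.Y994.MD.LowB
import Pool.Agent.Y994.MC.Area

/-!
The comparison of the duration and the number of visited blocks, at one scale, without boundary
terms.
-/

set_option autoImplicit false

namespace Y994.MD

open H974 Finset H342P H984P H984N TH992.L Y994.MC MeasureTheory

/-- The duration and the number of visited blocks are comparable for all pieces. -/
def GoodB (D : Dm) (W : ℕ) (K : ℝ) (N0 : ℕ) (F : Finset Edg) : Prop :=
  ∀ k l : ℕ, k ≤ l → l ≤ D.len F →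
    ((l - k + 1 : ℕ) : ℝ) ≤ (W : ℝ) ^ (7/4 : ℝ) * (K * (((vb D W F k l).card : ℝ) + N0)) ∧
    ((vb D W F k l).card : ℝ) ≤ K * (((l - k + 1 : ℕ) : ℝ) / (W : ℝ) ^ (7/4 : ℝ)) + (N0 + 9)

theorem GoodB.good {D : Dm} {W : ℕ} {K : ℝ} {N0 : ℕ} {F : Finset Edg} (h : GoodB D W K N0 F) :
    Good D W K N0 F := by
  intro k l hkl hl
  obtain ⟨h1, h2⟩ := h k l hkl hl
  have : (0:ℝ) ≤ (bc D W : ℝ) := Nat.cast_nonneg _
  exact ⟨h1, by linarith⟩

theorem goodB_pr {c C : ℝ} (hc : 0 < c) (hC : 0 < C) (hL : LowA c (1/4)) (hU : TwoUp C (1/4)) :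
    ∃ s K : ℝ, 0 < s ∧ 0 < K ∧ ∀ D : Dm, D.Ok → ∀ W : ℕ, 1 ≤ W → s ≤ W → 8 * (W:ℤ) ≤ -D.l →
      8 * (W:ℤ) ≤ D.r → 8 * (W:ℤ) ≤ D.h → ∀ N0 : ℕ,
      P D.edges (fun F => ¬ GoodB D W K N0 F) ≤ ((SB D W).card : ℝ) * (20 * (1/2) ^ N0) := by
  obtain ⟨c', s, hc', hs, hbad⟩ := exists_BF hc hC hL hU
  obtain ⟨K1, hK1, hheavy⟩ := heavy_pr hC hU
  refine ⟨s, max K1 (12 / c'), hs, lt_max_of_lt_left hK1,
    fun D hD W hW1 hsW g1 g2 g3 N0 => ?_⟩
  set K := max K1 (12 / c') with hK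
  obtain ⟨Bd, hb⟩ := hbad W hsW D hD g1 g2 g3
  set M := ⌈c' * (W:ℝ) ^ (7/4 : ℝ)⌉₊ with hM
  have hWr : (0:ℝ) < (W:ℝ) := by exact_mod_cast hW1
  have hWp : (0:ℝ) < (W:ℝ) ^ (7/4 : ℝ) := Real.rpow_pos_of_pos hWr _
  obtain ⟨Nm, hNm⟩ := len_bdd D
  -- the deterministic part
  have hdet : ∀ F ⊆ D.edges, ¬ GoodB D W K N0 F → ∃ q ∈ SB D W,
      Heavy D W K1 N0 Nm q F ∨ HolesB D W Bd N0 Nm q F := by
    intro F hF hnot
    by_contra hcon
    push Not at hcon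
    apply hnot
    intro k l hkl hl
    obtain ⟨hn1, hn2⟩ := hcon _ (bk_SB hD hF hW1 k)
    have hNm' := hNm F hF
    constructor
    · have h1 := up_det hD hF hW1 (K := K1) (N0 := N0) hNm' hkl hl hn1
      refine h1.trans (mul_le_mul_of_nonneg_left ?_ hWp.le)
      have h2 : ((max (vb D W F k l).card N0 : ℕ) : ℝ) ≤ ((vb D W F k l).card : ℝ) + N0 := by
        push_cast
        exact max_le (by linarith [(Nat.cast_nonneg N0 : (0:ℝ) ≤ N0)])
          (by linarith [(Nat.cast_nonneg (vb D W F k l).card : (0:ℝ) ≤ _)])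
      calc K1 * ((max (vb D W F k l).card N0 : ℕ) : ℝ) ≤ K1 * (((vb D W F k l).card : ℝ) + N0) :=
            mul_le_mul_of_nonneg_left h2 hK1.le
        _ ≤ K * (((vb D W F k l).card : ℝ) + N0) :=
            mul_le_mul_of_nonneg_right (le_max_left _ _) (by positivity)
    · have hpos : 0 ≤ K * (((l - k + 1 : ℕ) : ℝ) / (W : ℝ) ^ (7/4 : ℝ)) := by
        have : 0 < K := lt_max_of_lt_left hK1
        positivity
      have hN00 : (0:ℝ) ≤ (N0 : ℝ) := Nat.cast_nonneg _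
      by_cases hA : 10 ≤ (vb D W F k l).card
      · have h1 := low_detB hD hF hW1 hb hNm' hkl hl hn2 hA
        have hMr : c' * (W:ℝ) ^ (7/4 : ℝ) ≤ (M:ℝ) := Nat.le_ceil _
        have hM0 : (0:ℝ) < (M:ℝ) := lt_of_lt_of_le (by positivity) hMr
        have h2 : 3 * ((M:ℝ) * ((vb D W F k l).card : ℝ)) ≤
            36 * ((l - k + 1 : ℕ) : ℝ) + M * N0 := by
          have e : l + 1 - k = l - k + 1 := by omega
          rw [e] at h1
          exact_mod_cast h1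
        have h3 : ((vb D W F k l).card : ℝ) ≤
            12 * ((l - k + 1 : ℕ) : ℝ) / M + N0 / 3 := by
          have h4 : ((vb D W F k l).card : ℝ) =
              3 * ((M:ℝ) * ((vb D W F k l).card : ℝ)) / (3 * M) := by
            field_simp
          have h5 : 12 * ((l - k + 1 : ℕ) : ℝ) / M + N0 / 3 =
              (36 * ((l - k + 1 : ℕ) : ℝ) + M * N0) / (3 * M) := by
            field_simp
            ring
          rw [h4, h5]
          exact div_le_div_of_nonneg_right h2 (by positivity)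
        have h6 : 12 * ((l - k + 1 : ℕ) : ℝ) / M ≤
            K * (((l - k + 1 : ℕ) : ℝ) / (W : ℝ) ^ (7/4 : ℝ)) := by
          have h7 : 12 * ((l - k + 1 : ℕ) : ℝ) / M ≤
              12 * ((l - k + 1 : ℕ) : ℝ) / (c' * (W:ℝ) ^ (7/4 : ℝ)) :=
            div_le_div_of_nonneg_left (by positivity) (by positivity) hMr
          have h8 : 12 * ((l - k + 1 : ℕ) : ℝ) / (c' * (W:ℝ) ^ (7/4 : ℝ)) =
              (12 / c') * (((l - k + 1 : ℕ) : ℝ) / (W : ℝ) ^ (7/4 : ℝ)) := by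
            field_simp
          refine h7.trans ?_
          rw [h8]
          exact mul_le_mul_of_nonneg_right (le_max_right _ _) (by positivity)
        linarith
      · have h1 : ((vb D W F k l).card : ℝ) ≤ 9 := by
          have : (vb D W F k l).card ≤ 9 := by omega
          exact_mod_cast this
        linarith
  refine (Pr_mono two_ok hdet).trans ?_
  refine (Pr_exists_le two_ok _ _ _).trans ?_
  refine (sum_le_card_nsmul _ _ (20 * (1/2) ^ N0) fun q _ => ?_).trans ?_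
  · refine (Pr_or_le two_ok _ _ _).trans ?_
    have h1 := hheavy D W hW1 N0 Nm q
    have h2 := holesB_pr hW1 hb N0 Nm q
    unfold P at h1
    linarith
  · rw [nsmul_eq_mul]

theorem time_areaB {D : Dm} (hD : D.Ok) {F : Finset Edg} (hF : F ⊆ D.edges) {δ : ℝ} (hδ : 0 < δ)
    {W : ℕ} (hW : 2 ≤ W) {K : ℝ} (hK : 0 < K) {N0 : ℕ} (hG : GoodB D W K N0 F)
    {s t : unitInterval} (hst : s ≤ t) {r : ℝ} (hr : 0 ≤ r) :
    volume.real (Metric.thickening r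
      (pl (D.len F) (fun k => pos δ (D.walk F k)) '' Set.Icc s t)) ≤
      (K * ((((t:ℝ) - s) * (δ ^ (7/4 : ℝ) * D.len F) + 2 * δ ^ (7/4 : ℝ)) /
        (δ * W) ^ (7/4 : ℝ)) + (N0 + 9)) * (4 * (r + 3 * (δ * W)) ^ 2) := by
  have hN := len_pos hD hF
  set N := D.len F with hNdef
  set p : ℕ → ℂ := fun k => pos δ (D.walk F k) with hp
  have hN' : (0:ℝ) < N := by exact_mod_cast hN
  have hW2 : (2:ℝ) ≤ W := by exact_mod_cast hW
  have hWr : (0:ℝ) < W := by linarith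
  have hw : 0 < δ * W := by positivity
  have hδp : 0 < δ ^ (7/4 : ℝ) := Real.rpow_pos_of_pos hδ _
  have hwp : 0 < (δ * W) ^ (7/4 : ℝ) := Real.rpow_pos_of_pos hw _
  have hst' : (s:ℝ) ≤ t := hst
  have hs0 : 0 ≤ (s:ℝ) * N := mul_nonneg s.2.1 hN'.le
  have ht0 : 0 ≤ (t:ℝ) * N := mul_nonneg t.2.1 hN'.le
  have ht1 : (t:ℝ) * N ≤ N := by nlinarith [t.2.2]
  have c1 := Nat.floor_le hs0
  have c2 := Nat.lt_floor_add_one ((s:ℝ) * N)
  have f1 := Nat.floor_le ht0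
  have f2 := Nat.lt_floor_add_one ((t:ℝ) * N)
  have h : ⌊(s:ℝ) * N⌋₊ ≤ ⌊(t:ℝ) * N⌋₊ :=
    Nat.floor_mono (mul_le_mul_of_nonneg_right hst' hN'.le)
  set k := ⌊(s:ℝ) * N⌋₊ with hk
  set l := ⌊(t:ℝ) * N⌋₊ with hl
  have hlN : l ≤ N := by
    have : (l:ℝ) ≤ N := f1.trans ht1
    exact_mod_cast this
  obtain ⟨-, g2⟩ := hG k l h hlN
  have hkl : ((l - k + 1 : ℕ) : ℝ) = (l:ℝ) - k + 1 := by
    rw [Nat.cast_add, Nat.cast_sub h, Nat.cast_one]
  rw [hkl] at g2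
  have hA := vol_up (δ := δ) (Γ := pl N p '' Set.Icc s t) hw hr (vb D W F k l) (fun z hz => by
    obtain ⟨u, ⟨u1, u2⟩, rfl⟩ := hz
    obtain ⟨i, i1, i2, i3⟩ := near_node hN (p := p) u1 u2 (η := δ / 2) (by positivity)
      (fun j _ => by
        rw [hp]
        simp only
        rw [walk_succ]
        exact pos_nxt hδ.le _ _)
    refine ⟨Y994.MC.bk W (D.walk F i).1, ?_, ?_⟩
    · unfold vb
      rw [mem_vset]
      exact ⟨i, i1, i2, rfl⟩
    · have h1 := pos_ctr hδ (show 1 ≤ W by omega) (D.walk F i)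
      have h2 := dist_triangle (pl N p u) (p i) (Y994.MC.ctr δ (δ * W) (Y994.MC.bk W (D.walk F i).1))
      have h3 : δ * 2 ≤ δ * W := mul_le_mul_of_nonneg_left hW2 hδ.le
      have h4 : dist (p i) (Y994.MC.ctr δ (δ * W) (Y994.MC.bk W (D.walk F i).1)) ≤
        3/2 * (δ * W) := h1
      linarith)
  refine hA.trans (mul_le_mul_of_nonneg_right ?_ (by positivity))
  refine g2.trans (add_le_add_left ?_ _)
  refine mul_le_mul_of_nonneg_left ?_ hK.le
  rw [rpow_mul_74 hδ, div_le_div_iff₀ (Real.rpow_pos_of_pos hWr _)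
    (mul_pos hδp (Real.rpow_pos_of_pos hWr _))]
  have h5 : ((l:ℝ) - k + 1) ≤ ((t:ℝ) - s) * N + 2 := by nlinarith
  have hWp : 0 < (W:ℝ) ^ (7/4 : ℝ) := Real.rpow_pos_of_pos hWr _
  calc ((l:ℝ) - k + 1) * (δ ^ (7/4 : ℝ) * (W:ℝ) ^ (7/4 : ℝ)) ≤
      (((t:ℝ) - s) * N + 2) * (δ ^ (7/4 : ℝ) * (W:ℝ) ^ (7/4 : ℝ)) :=
        mul_le_mul_of_nonneg_right h5 (by positivity)
    _ = (((t:ℝ) - s) * (δ ^ (7/4 : ℝ) * N) + 2 * δ ^ (7/4 : ℝ)) * (W:ℝ) ^ (7/4 : ℝ) := by ring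

end Y994.MD
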