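import Pool.Agent.Y994.MC.LowD
import Pool.Agent.Y985.ME.Loc
import Pool.Agent.Y655.ME.Slow
import Pool.Agent.Y991.ME.BadPr

/-!
Lower bound, up to the boundary: a piece of the path which visits many blocks has a long duration.
-/

set_option autoImplicit false

namespace Y994.MD

open H974 Finset H342P H984P H984N TH992.L Y994.MC

/-- Bad events of the blocks. -/
structure BF (D : Dm) (W M : ℕ) (Bd : Vtx → Finset Edg → Prop) : Prop where
  loc : ∀ q F, Bd q F ↔ Bd q (F ∩ Pool.Agent.Y985.ME.Lam D W q)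
  pr : ∀ q ∈ Pool.Agent.Y985.ME.Bks D W,
    Pr (fun _ => (1/2:ℝ)) D.edges (Bd q) ≤ (1/648) ^ 196
  slow : ∀ F ⊆ D.edges, ∀ q, ¬ Bd q F → ∀ k l : ℕ, k ≤ l → l ≤ D.len F →
    (∀ t, k ≤ t → t ≤ l → sd (bk W (D.walk F t).1) q ≤ 1) →
    (W : ℤ) ≤ sd (D.walk F k).1 (D.walk F l).1 → M ≤ l - k

/-- the probability that all blocks of a set are bad -/
theorem all_badB {D : Dm} {W M : ℕ} (hW : 1 ≤ W) {Bd : Vtx → Finset Edg → Prop} (hb : BF D W M Bd)
    {B : Finset Vtx} (hcl : ∀ q ∈ B, ∀ r ∈ B, cls q = cls r)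
    (hB : B ⊆ Pool.Agent.Y985.ME.Bks D W) :
    Pr (fun _ => (1/2:ℝ)) D.edges (fun F => ∀ q ∈ B, Bd q F) ≤ ((1/648) ^ 196) ^ B.card := by
  classical
  have hW' : (1:ℤ) ≤ W := by exact_mod_cast hW
  have h1 : Pr (fun _ => (1/2:ℝ)) D.edges (fun F => ∀ q ∈ B, Bd q F) =
      Ex (fun _ => (1/2:ℝ)) D.edges (fun F => ∏ q ∈ B, ind (Bd q F)) := by
    refine Ex_congr fun F _ => ?_
    by_cases h : ∀ q ∈ B, Bd q F
    · rw [ind_of h, prod_eq_one fun q hq => ind_of (h q hq)]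
    · rw [ind_not_of h]
      push Not at h
      obtain ⟨q, hq, hn⟩ := h
      rw [prod_eq_zero hq (ind_not_of hn)]
  rw [h1, TH992.T.Ex_prod_indep B (Pool.Agent.Y985.ME.Lam D W)
    (fun q _ => Pool.Agent.Y991.ME.Lam_sub D W q)
    (fun q hq r hr hne => Pool.Agent.Y985.ME.Lam_disj hW'
      (le_trans (by norm_num) (cls_far (hcl q hq r hr) hne)))
    (fun q F => ind (Bd q F))
    (fun q _ F _ => ind_congr (hb.loc q F)), ← prod_const]
  exact prod_le_prod (fun q _ => Ex_nonneg half_ok fun F _ => ind_nonneg _)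
    (fun q hq => hb.pr q (hB hq))

/-- A connected set of blocks with many bad blocks. -/
def HolesB (D : Dm) (W : ℕ) (Bd : Vtx → Finset Edg → Prop) (N0 Nm : ℕ) (q0 : Vtx)
    (F : Finset Edg) : Prop :=
  ∃ N ∈ range (Nm + 1), ∃ A ∈ AS (2 * (N - 1)) q0, A.card = N ∧ ∃ B ∈ A.powerset,
    ((∀ q ∈ B, ∀ r ∈ B, cls q = cls r) ∧ (B ⊆ Pool.Agent.Y985.ME.Bks D W) ∧
    max N N0 ≤ 196 * B.card) ∧ ∀ q ∈ B, Bd q F

theorem holesB_pr {D : Dm} {W M : ℕ} (hW : 1 ≤ W) {Bd : Vtx → Finset Edg → Prop}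
    (hb : BF D W M Bd) (N0 Nm : ℕ) (q0 : Vtx) :
    Pr (fun _ => (1/2:ℝ)) D.edges (HolesB D W Bd N0 Nm q0) ≤ 2 * (1/2) ^ N0 := by
  classical
  have step : ∀ N : ℕ, ∀ A ∈ AS (2 * (N - 1)) q0,
      Pr (fun _ => (1/2:ℝ)) D.edges (fun F => A.card = N ∧ ∃ B ∈ A.powerset,
        ((∀ q ∈ B, ∀ r ∈ B, cls q = cls r) ∧ (B ⊆ Pool.Agent.Y985.ME.Bks D W) ∧
        max N N0 ≤ 196 * B.card) ∧ ∀ q ∈ B, Bd q F) ≤ (1/324) ^ (max N N0) := by
    intro N A _
    by_cases hc : A.card = N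
    · refine (Pr_mono half_ok (B := fun F => ∃ B ∈ A.powerset,
        ((∀ q ∈ B, ∀ r ∈ B, cls q = cls r) ∧ (B ⊆ Pool.Agent.Y985.ME.Bks D W) ∧
        max N N0 ≤ 196 * B.card) ∧ ∀ q ∈ B, Bd q F) fun F _ h => h.2).trans ?_
      refine (Pr_exists_le half_ok _ _ _).trans ?_
      have hone : ∀ B ∈ A.powerset, Pr (fun _ => (1/2:ℝ)) D.edges (fun F =>
          ((∀ q ∈ B, ∀ r ∈ B, cls q = cls r) ∧ (B ⊆ Pool.Agent.Y985.ME.Bks D W) ∧
          max N N0 ≤ 196 * B.card) ∧ ∀ q ∈ B, Bd q F) ≤ (1/648) ^ (max N N0) := by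
        intro B hB
        by_cases hcl : (∀ q ∈ B, ∀ r ∈ B, cls q = cls r) ∧ (B ⊆ Pool.Agent.Y985.ME.Bks D W) ∧
            max N N0 ≤ 196 * B.card
        · refine (Pr_mono half_ok (B := fun F => ∀ q ∈ B, Bd q F)
            fun F _ h => h.2).trans ?_
          refine (all_badB hW hb hcl.1 hcl.2.1).trans ?_
          rw [← pow_mul]
          exact pow_le_pow_of_le_one (by norm_num) (by norm_num) hcl.2.2
        · have h0 : Pr (fun _ => (1/2:ℝ)) D.edges (fun F =>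
              ((∀ q ∈ B, ∀ r ∈ B, cls q = cls r) ∧ (B ⊆ Pool.Agent.Y985.ME.Bks D W) ∧
              max N N0 ≤ 196 * B.card) ∧ ∀ q ∈ B, Bd q F) = 0 := by
            unfold Pr
            rw [Ex_congr (g := fun _ => 0) (fun F _ => ind_not_of
              (fun h => hcl h.1)), Ex_const]
          rw [h0]
          positivity
      refine (sum_le_card_nsmul _ _ _ hone).trans ?_
      rw [card_powerset, hc, nsmul_eq_mul]
      push_cast
      have h3 : (2:ℝ) ^ N ≤ 2 ^ (max N N0) := pow_le_pow_right₀ (by norm_num) (le_max_left _ _)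
      calc (2:ℝ) ^ N * (1/648) ^ (max N N0) ≤ 2 ^ (max N N0) * (1/648) ^ (max N N0) :=
            mul_le_mul_of_nonneg_right h3 (by positivity)
        _ = (1/324) ^ (max N N0) := by
            rw [← mul_pow]; norm_num
    · have h0 : Pr (fun _ => (1/2:ℝ)) D.edges (fun F => A.card = N ∧ ∃ B ∈ A.powerset,
          ((∀ q ∈ B, ∀ r ∈ B, cls q = cls r) ∧ (B ⊆ Pool.Agent.Y985.ME.Bks D W) ∧
          max N N0 ≤ 196 * B.card) ∧ ∀ q ∈ B, Bd q F) = 0 := by
        unfold Pr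
        rw [Ex_congr (g := fun _ => 0) (fun F _ => ind_not_of (fun h => hc h.1)), Ex_const]
      rw [h0]
      positivity
  unfold HolesB
  refine (Pr_exists_le half_ok _ _ _).trans ?_
  have h2 : ∀ N ∈ range (Nm + 1), Pr (fun _ => (1/2:ℝ)) D.edges (fun F =>
      ∃ A ∈ AS (2 * (N - 1)) q0, A.card = N ∧ ∃ B ∈ A.powerset,
        ((∀ q ∈ B, ∀ r ∈ B, cls q = cls r) ∧ (B ⊆ Pool.Agent.Y985.ME.Bks D W) ∧
        max N N0 ≤ 196 * B.card) ∧ ∀ q ∈ B, Bd q F) ≤ (1/2) ^ N0 * (1/2) ^ N := by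
    intro N _
    refine (Pr_exists_le half_ok _ _ _).trans ?_
    refine (sum_le_card_nsmul _ _ _ (step N)).trans ?_
    rw [nsmul_eq_mul]
    have h3 := AS_card' N q0
    have h4 : ((AS (2 * (N - 1)) q0).card : ℝ) ≤ 81 ^ (max N N0) :=
      h3.trans (pow_le_pow_right₀ (by norm_num) (le_max_left _ _))
    calc ((AS (2 * (N - 1)) q0).card : ℝ) * (1/324) ^ (max N N0)
        ≤ 81 ^ (max N N0) * (1/324) ^ (max N N0) :=
          mul_le_mul_of_nonneg_right h4 (by positivity)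
      _ = (1/4) ^ (max N N0) := by
          rw [← mul_pow]; norm_num
      _ ≤ (1/2) ^ N0 * (1/2) ^ N := four_max N N0
  refine (sum_le_sum h2).trans ?_
  rw [← mul_sum]
  have h5 := sum_geometric_two_le (Nm + 1)
  have h6 : (0:ℝ) ≤ (1/2) ^ N0 := by positivity
  calc (1/2 : ℝ) ^ N0 * ∑ i ∈ range (Nm + 1), (1/2) ^ i ≤ (1/2) ^ N0 * 2 :=
        mul_le_mul_of_nonneg_left h5 h6
    _ = 2 * (1/2) ^ N0 := by ring

open Classical in
/-- The path spends a long time near a good block. -/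
theorem good_timeB {D : Dm} {W M : ℕ} (hW1 : 1 ≤ W) {Bd : Vtx → Finset Edg → Prop}
    (hb : BF D W M Bd) {q : Vtx} {F : Finset Edg} (hF : F ⊆ D.edges) (hB : ¬ Bd q F)
    {k l τ T : ℕ} (hl : l ≤ D.len F)
    (h1 : k ≤ τ) (h2 : τ ≤ l) (h3 : k ≤ T) (h4 : T ≤ l) (hτ : bk W (D.walk F τ).1 = q)
    (hd : (W:ℤ) ≤ sd (D.walk F τ).1 (D.walk F T).1) :
    M ≤ ((Finset.Icc k l).filter (fun t => sd (bk W (D.walk F t).1) q ≤ 1)).card := by
  have hW : (1:ℤ) ≤ W := by exact_mod_cast hW1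
  -- the interval
  have main : ∀ s e : ℕ, s ≤ e → k ≤ s → e ≤ l → (W:ℤ) ≤ sd (D.walk F s).1 (D.walk F e).1 →
      (∀ t, s ≤ t → t ≤ e → sd (D.walk F τ).1 (D.walk F t).1 ≤ W) →
      M ≤ ((Finset.Icc k l).filter (fun t => sd (bk W (D.walk F t).1) q ≤ 1)).card := by
    intro s e hse hks hel hse2 hnear
    have hnb : ∀ t, s ≤ t → t ≤ e → sd (bk W (D.walk F t).1) q ≤ 1 := by
      intro t t1 t2
      rw [← hτ]
      refine le_trans (le_of_eq (H984H.det_sd_comm _ _)) ?_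
      exact bk_step hW (hnear t t1 t2)
    have h5 := hb.slow F hF q hB s e hse (by omega) hnb hse2
    have h6 : Finset.Icc s e ⊆
        (Finset.Icc k l).filter (fun t => sd (bk W (D.walk F t).1) q ≤ 1) := by
      intro t ht
      rw [mem_Icc] at ht
      rw [mem_filter, mem_Icc]
      exact ⟨by omega, hnb t ht.1 ht.2⟩
    have h7 := card_le_card h6
    rw [Nat.card_Icc] at h7
    omega
  rcases le_total τ T with hT | hT
  · obtain ⟨i, e1, e2, e3, e4⟩ := H984H.det_first (fun s => (D.walk F s).1)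
      (fun s => walk_step D F s) hT hd
    refine main τ i e1 h1 (by omega) e3 (fun t t1 t2 => ?_)
    have : sd (D.walk F τ).1 (D.walk F t).1 ≤ max (W:ℤ) 0 := e4 t t1 t2
    omega
  · obtain ⟨i, e1, e2, e3, e4⟩ := H984H.det_last (fun s => (D.walk F s).1)
      (fun s => walk_step D F s) hT hd
    refine main i τ e2 (by omega) h2 (e3.trans (le_of_eq (H984H.det_sd_comm _ _)))
      (fun t t1 t2 => ?_)
    have : sd (D.walk F τ).1 (D.walk F t).1 ≤ max (W:ℤ) 0 := e4 t t1 t2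
    omega

theorem vb_Bks {D : Dm} (hD : D.Ok) {F : Finset Edg} (hF : F ⊆ D.edges) {W : ℕ} (hW : 1 ≤ W)
    {k l : ℕ} : vb D W F k l ⊆ Pool.Agent.Y985.ME.Bks D W := by
  intro q hq
  unfold vb at hq
  rw [mem_vset] at hq
  obtain ⟨t, -, -, rfl⟩ := hq
  have hW' : (0 : ℤ) < W := by exact_mod_cast hW
  obtain ⟨⟨h1, h2⟩, h3, h4⟩ : (D.l ≤ (D.walk F t).1.1 ∧ (D.walk F t).1.1 ≤ D.r) ∧
      0 ≤ (D.walk F t).1.2 ∧ (D.walk F t).1.2 ≤ D.h := by
    have := walk_in hD hF t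
    unfold inR at this
    omega
  unfold Pool.Agent.Y985.ME.Bks Y994.MC.bk
  rw [mem_product, mem_Icc, mem_Icc]
  exact ⟨⟨Int.ediv_le_ediv hW' h1, Int.ediv_le_ediv hW' h2⟩,
    Int.ediv_nonneg h3 hW'.le, Int.ediv_le_ediv hW' h4⟩

open Classical in
/-- Outside the exceptional events the duration is at least a multiple of the number of blocks. -/
theorem low_detB {D : Dm} (hD : D.Ok) {F : Finset Edg} (hF : F ⊆ D.edges) {W M : ℕ}
    (hW : 1 ≤ W) {Bd : Vtx → Finset Edg → Prop} (hb : BF D W M Bd)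
    {N0 Nm : ℕ} (hNm : D.len F + 1 ≤ Nm) {k l : ℕ} (hkl : k ≤ l)
    (hl : l ≤ D.len F)
    (hn : ¬ HolesB D W Bd N0 Nm (bk W (D.walk F k).1) F)
    (hA : 10 ≤ (vb D W F k l).card) :
    3 * (M * (vb D W F k l).card) ≤ 36 * (l + 1 - k) + M * N0 := by
  have hW' : (1 : ℤ) ≤ W := by exact_mod_cast hW
  set A := vb D W F k l with hAdef
  set Bb := A.filter (fun q => Bd q F) with hBd
  set G := A.filter (fun q => ¬ Bd q F) with hG
  have c2 : Bb.card + G.card = A.card := card_filter_add_card_filter_not _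
  have c4 : 4 * Bb.card ≤ max A.card N0 := by
    obtain ⟨c, hc⟩ := pigeon (le_refl Bb.card)
    by_contra hcon
    push Not at hcon
    apply hn
    obtain ⟨h2, h3⟩ := vb_AS (D := D) (F := F) hW hkl
    have h4 := vb_card (D := D) (F := F) (W := W) (k := k) hl
    rw [← hAdef] at h2 h3 h4
    refine ⟨A.card, mem_range.mpr ?_, A, h3, rfl, Bb.filter (fun q => cls q = c), ?_, ⟨?_, ?_, ?_⟩, ?_⟩
    · omega
    · rw [mem_powerset]
      intro q hq
      exact (mem_filter.mp (mem_filter.mp hq).1).1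
    · intro q hq r hr
      rw [(mem_filter.mp hq).2, (mem_filter.mp hr).2]
    · intro q hq
      exact vb_Bks hD hF hW (mem_filter.mp (mem_filter.mp hq).1).1
    · omega
    · intro q hq
      exact (mem_filter.mp (mem_filter.mp hq).1).2
  have c5 : G.card * M ≤ (l + 1 - k) * 9 := by
    refine sum_time (β := fun t => bk W (D.walk F t).1) fun q hq => ?_
    rw [hG, mem_filter] at hq
    obtain ⟨hqA, hqB⟩ := hq
    have hqA' := hqA
    rw [hAdef] at hqA'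
    unfold vb at hqA'
    rw [mem_vset] at hqA'
    obtain ⟨τ, t1, t2, t3⟩ := hqA'
    -- a far block
    obtain ⟨q', hq', hne⟩ : ∃ q' ∈ A, q' ∉ nb9 q := by
      by_contra hcon
      push Not at hcon
      have := card_le_card (fun x hx => hcon x hx : A ⊆ nb9 q)
      rw [card_nb9] at this
      omega
    rw [hAdef] at hq'
    unfold vb at hq'
    rw [mem_vset] at hq'
    obtain ⟨T, u1, u2, u3⟩ := hq'
    have hfar : (W:ℤ) ≤ sd (D.walk F τ).1 (D.walk F T).1 := by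
      by_contra hcon
      push Not at hcon
      apply hne
      rw [mem_nb9]
      have := bk_step hW' hcon.le
      rw [t3, u3] at this
      exact this
    exact good_timeB hW hb hF hqB hl t1 t2 u1 u2 t3 hfar
  have c7 : 3 * A.card ≤ 4 * G.card + N0 := by omega
  calc 3 * (M * A.card) = M * (3 * A.card) := by ring
    _ ≤ M * (4 * G.card + N0) := Nat.mul_le_mul_left M c7
    _ = 4 * (G.card * M) + M * N0 := by ring
    _ ≤ 36 * (l + 1 - k) + M * N0 := by omega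

/-- The bad events. -/
theorem exists_BF {c C : ℝ} (hc : 0 < c) (hC : 0 < C) (hL : LowA c (1/4)) (hU : TwoUp C (1/4)) :
    ∃ c' s : ℝ, 0 < c' ∧ 0 < s ∧ ∀ W : ℕ, s ≤ W → ∀ D : Dm, D.Ok → 8 * (W:ℤ) ≤ -D.l →
      8 * (W:ℤ) ≤ D.r → 8 * (W:ℤ) ≤ D.h →
      ∃ Bd : Vtx → Finset Edg → Prop, BF D W ⌈c' * (W : ℝ) ^ (7/4 : ℝ)⌉₊ Bd := by
  obtain ⟨c', s, hc', hs, h⟩ := Pool.Agent.Y991.ME.badpr hc hC hL hU ((1/648) ^ 196) (by positivity)
  refine ⟨c', s, hc', hs, fun W hW D hD g1 g2 g3 => ?_⟩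
  obtain ⟨R, L, w, hp, hb⟩ := h W (by exact_mod_cast hW)
  have e : ((W : ℤ) : ℝ) = (W : ℝ) := by push_cast; rfl
  rw [e] at hb
  refine ⟨Pool.Agent.Y985.ME.Bad ⌈c' * (W : ℝ) ^ (7/4 : ℝ)⌉₊ R L w W D, ?_, ?_, ?_⟩
  · intro q F
    exact Pool.Agent.Y991.ME.bad_local hp D q F
  · intro q hq
    exact hb D hD g1 g2 g3 q hq
  · intro F hF q hq k l hkl hl hin hd
    exact Pool.Agent.Y655.ME.slow D _ R L w W q F hD hp g1 g2 g3 hF hq k l hkl hl hin hd

end Y994.MD
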